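import Pool.Agent.U845.XM.Stm
import Pool.Agent.N848.Q.H

/-!
# Project XM (helper845), package POS: the Selmer group of the isogeny
-/

set_option autoImplicit false
set_option linter.unusedVariables false

open scoped Classical

namespace Pool.Agent.U394.XM

open Finset
open Pool.Agent.U115.GE (SelSet sel)
open Pool.Agent.N916.GB (Po sy Vt Gd sum_uu z2 z2_add_self)
open Pool.Agent.Y703.CQ (nr)
open Pool.Agent.N973.ND (uu)
open Pool.Agent.N848.Q (ns ns_mul ns_nat ns_zero ns_neg_one ns_one ns_prod_star Dl ns_Dl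
  not_dvd_Dl not_dvd_prod_star prod_star_sign sum_Vt mem_Vt sy_odd left_two gen_left Lk)
open Pool.Agent.U845.XM (Nc Par S_LOC S_A S_B S_C S_POS)

section data

variable {n : ℕ} {t : Bool} {r s : ZMod 2}

lemma po_of (hn2 : n % 2 = 1) : ∀ p ∈ n.primeFactors, Po p := by
  intro p hp
  refine ⟨Nat.prime_of_mem_primeFactors hp, ?_⟩
  rintro rfl
  have := Nat.dvd_of_mem_primeFactors hp
  omega

lemma odd_of (h4 : n % 4 = if s = 0 then 3 else 1) : n % 2 = 1 := by
  split_ifs at h4 <;> omega

lemma uu_of (hn : Squarefree n) (h4 : n % 4 = if s = 0 then 3 else 1) :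
    ∑ p ∈ n.primeFactors, uu p = 1 + s := by
  have h1 := sum_uu n.primeFactors (po_of (odd_of h4))
  rw [Nat.prod_primeFactors_of_squarefree hn, h4] at h1
  rcases z2 s with hs | hs <;> rcases z2 (∑ p ∈ n.primeFactors, uu p) with hu | hu <;>
    rw [hs, hu] at h1 ⊢ <;> first | decide | (exfalso; revert h1; decide)

lemma star_of (hn : Squarefree n) (h4 : n % 4 = if s = 0 then 3 else 1) :
    ∏ p ∈ n.primeFactors, N848.Q.star p = if s = 0 then -(n : ℤ) else n := by
  have h2 : ∏ p ∈ n.primeFactors, (p : ℤ) = n := by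
    rw [← Nat.cast_prod, Nat.prod_primeFactors_of_squarefree hn]
  rw [prod_star_sign, uu_of hn h4, h2]
  rcases z2 s with hs | hs <;> rw [hs]
  · rw [if_neg (by decide), if_pos rfl]; ring
  · rw [if_pos (by decide), if_neg (by decide)]; ring

lemma M_of (hn : Squarefree n) (h4 : n % 4 = if s = 0 then 3 else 1) :
    Dl r s * ∏ p ∈ n.primeFactors, N848.Q.star p = -(((if r = 1 then 2 * n else n : ℕ)) : ℤ) := by
  rw [star_of hn h4]
  unfold Dl
  rcases z2 r with hr | hr <;> rcases z2 s with hs | hs <;> rw [hr, hs]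
  · rw [if_neg (by decide), if_neg (by decide), if_pos rfl, if_neg (by decide)]; ring
  · rw [if_neg (by decide), if_pos rfl, if_neg (by decide), if_neg (by decide)]; ring
  · rw [if_pos rfl, if_neg (by decide), if_pos rfl, if_pos rfl]; push_cast; ring
  · rw [if_pos rfl, if_pos rfl, if_neg (by decide), if_pos rfl]; push_cast; ring

end data

lemma not_dvd_prod {p : ℕ} (hp : p.Prime) (T : Finset ℕ) (hT : ∀ q ∈ T, q.Prime) (h : p ∉ T) :
    ¬ (p : ℤ) ∣ ∏ q ∈ T, (q : ℤ) := by
  have hpp : Prime (p : ℤ) := Nat.prime_iff_prime_int.1 hp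
  intro h1
  obtain ⟨q, hq, h2⟩ := (hpp.dvd_finsetProd_iff _).1 h1
  rw [Int.natCast_dvd_natCast] at h2
  have h3 := (Nat.prime_dvd_prime_iff_eq hp (hT q hq)).1 h2
  rw [h3] at h
  exact h hq

lemma ns_prod {p : ℕ} (hp : p.Prime) (T : Finset ℕ) (hT : ∀ q ∈ T, q.Prime) (h : p ∉ T) :
    ns p (∏ q ∈ T, (q : ℤ)) = ∑ q ∈ T, nr p q := by
  induction T using Finset.induction_on with
  | empty => rw [prod_empty, sum_empty, ns_one]
  | insert a S ha ih =>
    rw [prod_insert ha, sum_insert ha]
    have h1 : p ≠ a := fun e => h (e ▸ mem_insert_self a S)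
    have h2 : p ∉ S := fun e => h (mem_insert_of_mem e)
    have h3 : ∀ q ∈ S, q.Prime := fun q hq => hT q (mem_insert_of_mem hq)
    have h4 := hT a (mem_insert_self a S)
    have h5 : ¬ (p : ℤ) ∣ (a : ℤ) := by
      rw [Int.natCast_dvd_natCast]
      exact fun h => h1 ((Nat.prime_dvd_prime_iff_eq hp h4).1 h)
    rw [ns_mul hp h5 (not_dvd_prod hp S h3 h2), ns_nat, ih h3 h2]

/-- the sum of a symmetric function off the diagonal -/
lemma sum_sym (V : Finset ℕ) (f : ℕ → ℕ → ZMod 2) (hf : ∀ a b, f a b = f b a)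
    (h0 : ∀ a, f a a = 0) : ∑ p ∈ V, ∑ q ∈ V, f p q = 0 := by
  induction V using Finset.induction_on with
  | empty => rw [sum_empty]
  | insert a S ha ih =>
    rw [sum_insert ha, sum_insert ha, h0, zero_add]
    have h1 : ∀ p ∈ S, ∑ q ∈ insert a S, f p q = f a p + ∑ q ∈ S, f p q := by
      intro p _
      rw [sum_insert ha, hf p a]
    rw [sum_congr rfl h1, sum_add_distrib, ih, add_zero, z2_add_self]

variable {t : Bool} {r s : ZMod 2} {S : Finset ℕ}

lemma sum_Lk (x : ℕ → ZMod 2) : ∑ p ∈ Vt t S, Lk t r s S x p = 0 := by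
  unfold Lk
  refine sum_sym (Vt t S) (fun p q => if q = p then 0 else x q * sy r s q p + x p * sy r s p q)
    (fun a b => ?_) (fun a => if_pos rfl)
  by_cases h : a = b
  · rw [h]
  · have h' : b ≠ a := fun e => h e.symm
    simp only [if_neg h, if_neg h']
    rw [add_comm]

lemma Vt_prime (hS : ∀ p ∈ S, Po p) {q : ℕ} (hq : q ∈ Vt t S) : q.Prime := by
  rcases mem_Vt.1 hq with ⟨_, rfl⟩ | h
  · exact Nat.prime_two
  · exact (hS q h).1

lemma Lk_eq (hS : ∀ p ∈ S, Po p) (hok : t = false → r = 0 ∧ s = 0) {D : Finset ℕ}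
    (hD : D ⊆ Vt t S) {p : ℕ} (hp : p ∈ S) :
    Lk t r s S (fun q => if q ∈ D then 1 else 0) p = ns p (∏ q ∈ D.erase p, (q : ℤ)) +
      (if p ∈ D then ns p (Dl r s * ∏ q ∈ S.erase p, N848.Q.star q) else 0) := by
  have hp' := hS p hp
  have e1 : ∑ q ∈ Vt t S, (if q = p then 0 else (if q ∈ D then (1 : ZMod 2) else 0) * sy r s q p) =
      ns p (∏ q ∈ D.erase p, (q : ℤ)) := by
    rw [ns_prod hp'.1 (D.erase p) (fun q hq => Vt_prime hS (hD (mem_of_mem_erase hq)))
      (notMem_erase p D)]
    have h1 : ∀ q ∈ Vt t S, (if q = p then 0 else (if q ∈ D then (1 : ZMod 2) else 0) *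
        sy r s q p) = if q ∈ D.erase p then nr p q else 0 := by
      intro q _
      rw [sy_odd hp']
      by_cases h : q = p
      · rw [if_pos h, h, if_neg (notMem_erase p D)]
      · rw [if_neg h]
        by_cases h2 : q ∈ D
        · rw [if_pos h2, if_pos (mem_erase.2 ⟨h, h2⟩), one_mul]
        · rw [if_neg h2, if_neg (fun h3 => h2 (mem_of_mem_erase h3)), zero_mul]
    rw [sum_congr rfl h1, sum_ite_mem, inter_eq_right.2 ((erase_subset p D).trans hD)]
  have e2 : ∑ q ∈ Vt t S, (if q = p then 0 else sy r s p q) =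
      ns p (Dl r s * ∏ q ∈ S.erase p, N848.Q.star q) := by
    have hT : ∀ q ∈ S.erase p, Po q := fun q hq => hS q (mem_of_mem_erase hq)
    rw [ns_mul hp'.1 (not_dvd_Dl hp') (not_dvd_prod_star hp' _ hT (notMem_erase p S)),
      ns_Dl hp', ns_prod_star hp' _ hT (notMem_erase p S), sum_Vt hS]
    have h3 : (2 : ℕ) ≠ p := fun h => hp'.2 h.symm
    rw [if_neg h3]
    congr 1
    · by_cases ht : t = true
      · rw [if_pos ht]
        exact if_pos rfl
      · rw [if_neg ht]
        obtain ⟨h4, h5⟩ := hok (by simpa using ht)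
        rw [h4, h5]
        ring
    · have h1 : ∀ q ∈ S, (if q = p then 0 else sy r s p q) = if q ∈ S.erase p then nr q p else 0 := by
        intro q hq
        by_cases h : q = p
        · rw [if_pos h, h, if_neg (notMem_erase p S)]
        · rw [if_neg h, if_pos (mem_erase.2 ⟨h, hq⟩), sy_odd (hS q hq)]
      rw [sum_congr rfl h1, sum_ite_mem, inter_eq_right.2 (erase_subset p S)]
  have e3 : Lk t r s S (fun q => if q ∈ D then 1 else 0) p =
      ∑ q ∈ Vt t S, (if q = p then 0 else (if q ∈ D then (1 : ZMod 2) else 0) * sy r s q p) +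
      (if p ∈ D then 1 else 0) * ∑ q ∈ Vt t S, (if q = p then 0 else sy r s p q) := by
    unfold Lk
    rw [mul_sum, ← sum_add_distrib]
    refine sum_congr rfl fun q _ => ?_
    by_cases h : q = p
    · rw [if_pos h, if_pos h, if_pos h, mul_zero, add_zero]
    · rw [if_neg h, if_neg h, if_neg h]
  rw [e3, e1, e2]
  congr 1
  by_cases h : p ∈ D
  · rw [if_pos h, if_pos h, one_mul]
  · rw [if_neg h, if_neg h, zero_mul]

theorem t_POS (hL : S_LOC) (hA : S_A) (hB : S_B) (hC : S_C) : S_POS := by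
  intro n t r s m hn hp hG d hd
  obtain ⟨hn0, hn3, hn51, hn54⟩ := hn
  obtain ⟨hnm, hm4, ht⟩ := hp
  have hm : Squarefree m := by
    refine hn0.squarefree_of_dvd ?_
    rw [hnm]
    split_ifs
    · exact Dvd.intro_left _ rfl
    · exact dvd_rfl
  have hm2 : m % 2 = 1 := odd_of hm4
  have hS := po_of hm2
  have hok : t = false → r = 0 ∧ s = 0 := ht.1
  have hU := uu_of hm hm4
  have hM := M_of (r := r) hm hm4
  rw [← hnm] at hM
  obtain ⟨hd0, hdq⟩ := (hC n hn0).1 d hd
  have hd5 : (5 : ℤ) ∣ d → 5 ∣ n := by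
    intro h
    by_contra h5
    have h6 : n % 5 = 2 ∨ n % 5 = 3 := by omega
    exact (hA n hn0).1 d hd h6 h
  have hd2 : (2 : ℤ) ∣ d → t = true := by
    intro h
    by_contra h2
    have h3 := hok (by simpa using h2)
    have h4 : n % 4 = 3 := by
      rw [hnm, if_neg (by rw [h3.1]; decide), hm4, if_pos h3.2]
    exact (hB n hn0).1 d hd h4 h
  have hmn : m ∣ n := by
    rw [hnm]
    split_ifs
    · exact Dvd.intro_left _ rfl
    · exact dvd_rfl
  have hnq : ∀ q : ℕ, q.Prime → q ≠ 2 → q ∣ n → q ∣ m := by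
    intro q hq h2 h
    rw [hnm] at h
    split_ifs at h
    · rcases (Nat.Prime.dvd_mul hq).1 h with h3 | h3
      · exact absurd ((Nat.prime_dvd_prime_iff_eq hq Nat.prime_two).1 h3) h2
      · exact h3
    · exact h
  have hdV : ∀ q : ℕ, q.Prime → (q : ℤ) ∣ d → q ∈ Vt t m.primeFactors := by
    intro q hq h
    by_cases h2 : q = 2
    · subst h2
      exact mem_Vt.2 (Or.inl ⟨hd2 h, rfl⟩)
    · have h3 : q ∣ n := by
        rcases hdq q hq h with h' | h' | h'
        · exact absurd h' h2
        · subst h'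
          exact hd5 h
        · exact h'
      exact mem_Vt.2 (Or.inr (Nat.mem_primeFactors.2 ⟨hq, hnq q hq h2 h3, hm.ne_zero⟩))
  obtain ⟨D, hDdef⟩ : ∃ D, D = d.natAbs.primeFactors := ⟨_, rfl⟩
  have hdsq : Squarefree d.natAbs := Int.squarefree_natAbs.2 hd.1
  have hmD : ∀ q : ℕ, q ∈ D ↔ q.Prime ∧ (q : ℤ) ∣ d := by
    intro q
    rw [hDdef, Nat.mem_primeFactors, Int.natCast_dvd]
    exact ⟨fun h => ⟨h.1, h.2.1⟩, fun h => ⟨h.1, h.2, hdsq.ne_zero⟩⟩
  have hDV : D ⊆ Vt t m.primeFactors := fun q hq => hdV q ((hmD q).1 hq).1 ((hmD q).1 hq).2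
  have hdD : d = ∏ q ∈ D, (q : ℤ) := by
    rw [hDdef, ← Nat.cast_prod, Nat.prod_primeFactors_of_squarefree hdsq]
    exact (Int.natAbs_of_nonneg hd0.le).symm
  -- the odd primes
  have hodd : ∀ p ∈ m.primeFactors,
      Lk t r s m.primeFactors (fun q => if q ∈ D then 1 else 0) p = 0 := by
    intro p hp
    have hp' := hS p hp
    have hpn : p ∣ n := (Nat.dvd_of_mem_primeFactors hp).trans hmn
    obtain ⟨h1, h2⟩ := (hL n hn0 p hp'.1 hpn).1 d hd
    rw [Lk_eq hS hok hDV hp]
    by_cases hpD : p ∈ D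
    · rw [if_pos hpD]
      obtain ⟨n1, hn1⟩ := hpn
      have hp0 : (p : ℤ) ≠ 0 := by exact_mod_cast hp'.1.ne_zero
      have hn1' : ¬ (p : ℤ) ∣ (n1 : ℤ) := by
        rw [Int.natCast_dvd_natCast]
        rintro ⟨c, hc⟩
        have h3 := hn0 p ⟨c, by rw [hn1, hc, mul_assoc]⟩
        rw [Nat.isUnit_iff] at h3
        exact hp'.1.one_lt.ne' h3
      have hd1 : d = p * ∏ q ∈ D.erase p, (q : ℤ) := by
        rw [mul_prod_erase D (fun q : ℕ => (q : ℤ)) hpD]
        exact hdD
      have hd1' : ¬ (p : ℤ) ∣ ∏ q ∈ D.erase p, (q : ℤ) :=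
        not_dvd_prod hp'.1 _ (fun q hq => ((hmD q).1 (mem_of_mem_erase hq)).1) (notMem_erase p D)
      have h3 := h2 _ n1 hd1 (by rw [hn1]; push_cast; ring)
      have h4 : ns p (Dl r s * ∏ q ∈ m.primeFactors.erase p, N848.Q.star q) = ns p n1 := by
        rw [← mul_prod_erase m.primeFactors N848.Q.star hp, hn1] at hM
        push_cast at hM
        by_cases h5 : p % 4 = 3
        · have h6 : N848.Q.star p = -(p : ℤ) := if_pos h5
          rw [h6] at hM
          congr 1
          refine mul_left_cancel₀ hp0 ?_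
          linear_combination -hM
        · have h6 : N848.Q.star p = (p : ℤ) := if_neg h5
          rw [h6] at hM
          have h7 : Dl r s * ∏ q ∈ m.primeFactors.erase p, N848.Q.star q = (-1) * (n1 : ℤ) := by
            refine mul_left_cancel₀ hp0 ?_
            linear_combination hM
          have h8 : ¬ (p : ℤ) ∣ -1 := by
            rw [dvd_neg, Int.natCast_dvd_ofNat]
            intro h2
            exact hp'.1.one_lt.ne' (Nat.dvd_one.1 h2)
          have h9 : uu p = 0 := if_neg h5
          rw [h7, ns_mul hp'.1 h8 hn1', ns_neg_one hp'.1, h9, zero_add]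
      rw [h4, ← ns_mul hp'.1 hd1' hn1', ns_zero]
      exact h3
    · rw [if_neg hpD, add_zero, erase_eq_of_notMem hpD, ← hdD, ns_zero]
      exact h1 fun h => hpD ((hmD p).2 ⟨hp'.1, h⟩)
  have hall : ∀ p ∈ Vt t m.primeFactors,
      Lk t r s m.primeFactors (fun q => if q ∈ D then 1 else 0) p = 0 := by
    intro p hp
    rcases mem_Vt.1 hp with ⟨ht1, rfl⟩ | hp
    · have h1 := sum_Lk (t := t) (r := r) (s := s) (S := m.primeFactors)
        (fun q => if q ∈ D then 1 else 0)
      rw [sum_Vt hS, if_pos ht1, sum_eq_zero hodd, add_zero] at h1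
      exact h1
    · exact hodd p hp
  have hgen := gen_left hS hok hU
  have hp₀ : ∃ p₀ ∈ Vt t m.primeFactors, (if p₀ = 2 then r else 1) ≠ 0 := by
    by_cases hne : m.primeFactors.Nonempty
    · obtain ⟨p₀, h⟩ := hne
      refine ⟨p₀, mem_Vt.2 (Or.inr h), ?_⟩
      rw [if_neg (hS p₀ h).2]
      exact one_ne_zero
    · rw [not_nonempty_iff_eq_empty, Nat.primeFactors_eq_empty] at hne
      have hm1 : m = 1 := hne.resolve_left hm.ne_zero
      rcases z2 r with hr | hr
      · exfalso
        rw [hm1, if_neg (by rw [hr]; decide)] at hnm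
        rw [hnm] at hn51
        exact hn51 rfl
      · refine ⟨2, mem_Vt.2 (Or.inl ⟨?_, rfl⟩), ?_⟩
        · by_contra h
          have h2 := hok (by simpa using h)
          rw [h2.1] at hr
          exact absurd hr (by decide)
        · rw [if_pos rfl, hr]
          exact one_ne_zero
  obtain ⟨p₀, hp₀V, hp₀y⟩ := hp₀
  rcases left_two hG hall hgen hp₀V hp₀y with h | h
  · -- no prime factors
    left
    have hD0 : D = ∅ := by
      rw [eq_empty_iff_forall_notMem]
      intro q hq
      have h1 := h q (hDV hq)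
      rw [if_pos hq] at h1
      exact one_ne_zero h1
    rw [hdD, hD0, prod_empty]
  · right
    have hDn : D = n.primeFactors := by
      ext q
      rw [Nat.mem_primeFactors]
      constructor
      · intro hq
        have hqV := hDV hq
        have h1 := h q hqV
        rw [if_pos hq] at h1
        refine ⟨((hmD q).1 hq).1, ?_, hn0.ne_zero⟩
        rcases mem_Vt.1 hqV with ⟨_, rfl⟩ | h2
        · rw [if_pos rfl] at h1
          rw [hnm, if_pos h1.symm]
          exact Dvd.intro _ rfl
        · exact (Nat.dvd_of_mem_primeFactors h2).trans hmn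
      · rintro ⟨hq, hqn, _⟩
        by_cases h2 : q = 2
        · subst h2
          have hr : r = 1 := by
            refine (z2 r).resolve_left fun hr => ?_
            rw [hnm, if_neg (by rw [hr]; decide)] at hqn
            omega
          have ht1 : t = true := by
            by_contra h3
            have h4 := hok (by simpa using h3)
            rw [h4.1] at hr
            exact absurd hr (by decide)
          have h1 := h 2 (mem_Vt.2 (Or.inl ⟨ht1, rfl⟩))
          rw [if_pos rfl, hr] at h1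
          by_contra h3
          rw [if_neg h3] at h1
          exact zero_ne_one h1
        · have h1 := h q (mem_Vt.2 (Or.inr (Nat.mem_primeFactors.2
            ⟨hq, hnq q hq h2 hqn, hm.ne_zero⟩)))
          rw [if_neg h2] at h1
          by_contra h3
          rw [if_neg h3] at h1
          exact zero_ne_one h1
    rw [hdD, hDn, ← Nat.cast_prod, Nat.prod_primeFactors_of_squarefree hn0]

end Pool.Agent.U394.XM
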